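import Pool.Agent.H27.L1.H1.GZ.JSH
import Pool.Agent.H27.L1.H1.GZ.WSM
import Pool.Agent.H27.L1.H11.GA.ACA
import Pool.Agent.H27.L1.H11.GHY.DYD
import Pool.Agent.H27.L1.H12.GA.NZU
import Pool.Agent.H27.L1.H13.GA.OSA
import Pool.Agent.H27.L1.H13.GHY.CGB
import Pool.Agent.H27.L1.H14.GHY.GAL
import Pool.Agent.H27.L1.H14.GHY.HCP
import Pool.Agent.H27.L1.H14.GZ.EXT
import Pool.Agent.H27.L1.H14.GZ.RED
import Pool.Agent.H27.L1.H16.GB.FEC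
import Pool.Agent.H27.L1.H16.GHY.WR
import Pool.Agent.H27.L1.H16.GZZ.TAY
import Pool.Agent.H27.L1.H17.GA.GLA
import Pool.Agent.H27.L1.H19.GA.FTA
import Pool.Agent.H27.L1.H19.GA.POA
import Pool.Agent.H27.L1.H19.GZ.CUB
import Pool.Agent.H27.L1.H20.GA.UBD
import Pool.Agent.H27.L1.H20.GU.CNX
import Pool.Agent.H27.L1.H20.GZ.VOL
import Pool.Agent.H27.L1.H23.GA.PHB
import Pool.Agent.H27.L1.H23.GA.SGA
import Pool.Agent.H27.L1.H55.INZ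
import Pool.Agent.H27.L1.H23.GA.ZLO
import Pool.Agent.H27.L1.H23.GB.TargetsA
import Pool.Agent.H27.L1.H23.GHY.EID
import Pool.Agent.H27.L1.H23.GZZ.AFZ
import Pool.Agent.H27.L1.H27.GA.THG
import Pool.Agent.H27.L1.H30.GU.FR1
import Pool.Agent.H27.L1.H31.GA.PA2
import Pool.Agent.H27.L1.H31.GB.ZPE
import Pool.Agent.H27.L1.H31.GZ.SHI
import Pool.Agent.H27.L1.H32.GZ.CMA
import Pool.Agent.H27.L1.H34.GA.Targets1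
import Pool.Agent.H27.L1.H34.GM.CONv
import Pool.Agent.H27.L1.H34.GM.HAC
import Pool.Agent.H27.L1.H34.GM.MSR
import Pool.Agent.H27.L1.H34.GM.PLC
import Pool.Agent.H27.L1.H34.GM.PRF
import Pool.Agent.H27.L1.H34.GM.Targets
import Pool.Agent.H27.L1.H34.GM.Targets2
import Pool.Agent.H27.L1.H34.GU.Targets1
import Pool.Agent.H27.L1.H34.GZZ.GBZ
import Pool.Agent.H27.L1.H34.GZZ.HYZ
import Pool.Agent.H27.L1.H34.GZZ.ZEU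
import Pool.Agent.H27.L1.H35.GA.LMA
import Pool.Agent.H27.L1.H35.GB.LMB
import Pool.Agent.H27.L1.H36.GHY.SQD
import Pool.Agent.H27.L1.H36.GZ.GSU
import Pool.Agent.H27.L1.H37.GHY.CRD
import Pool.Agent.H27.L1.H38.GM.PLR
import Pool.Agent.H27.L1.H4.GZ.FLG
import Pool.Agent.H27.L1.H4.GZ.TNZ
import Pool.Agent.H27.L1.H40.GUM.ALU
import Pool.Agent.H27.L1.H40.GUM.PSU
import Pool.Agent.H27.L1.H44.GMF.HAR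
import Pool.Agent.H27.L1.H49.GHY.KCD
import Pool.Agent.H27.L1.H5.GHY.VTH
import Pool.Agent.H27.L1.H50.GA.NZR
import Pool.Agent.H27.L1.H51.GA.POV
import Pool.Agent.H27.L1.H52.GA.DCA
import Pool.Agent.H27.L1.H54.GA.EGA
import Pool.Agent.H27.L1.H54.GHY.LT4
import Pool.Agent.H27.L1.H55.GA.ADR
import Pool.Agent.H27.L1.H55.GA.EIA
import Pool.Agent.H27.L1.H55.GA.EZA
import Pool.Agent.H27.L1.H55.GHY.HSD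
import Pool.Agent.H27.L1.H55.GHY.TBS
import Pool.Agent.H27.L1.H55.GZZ.CIZ
import Pool.Agent.H27.L1.H57.GZ.VLA
import Pool.Agent.H27.L1.H61.GHY.LSD
import Pool.Agent.H27.L1.H62.GZ.CHN
import Pool.Agent.H27.L1.H63.GA.PA1
import Pool.Agent.H27.L1.H63.GZ.CVZ
import Pool.Agent.H27.L1.H64.GZ.ALZ
import Pool.Agent.H27.L1.H67.GZ.IDX
import Pool.Agent.H27.L1.H67.GZ.STA
import Pool.Agent.H27.L1.H68.GHY.Targets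
import Pool.Agent.H27.L1.H68.GZ.DYM
import Pool.Agent.H27.L1.H68.GZ.SEX
import Pool.Agent.H27.L1.H69.GA.CFA
import Pool.Agent.H27.L1.H69.GA.ENA
import Pool.Agent.H27.L1.H69.GA.FEA
import Pool.Agent.H27.L1.H69.GA.MLZ
import Pool.Agent.H27.L1.H69.GA.SMA
import Pool.Agent.H27.L1.H69.GHY.KMD
import Pool.Agent.H27.L1.H69.GZ.MUL
import Pool.Agent.H27.L1.H72.GZ.VO2
import Pool.Agent.H27.L1.H73.GHY.CLD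
import Pool.Agent.H27.L1.H74.GA.APR
import Pool.Agent.H27.L1.H74.GA.RRA
import Pool.Agent.H27.L1.H74.GA.RRC
import Pool.Agent.H27.L1.H77.GZ.STR
import Pool.Agent.H27.L1.H80.GA.ADB
import Pool.Agent.H27.L1.H80.GHY.OCD
import Pool.Agent.H27.L1.H83.GA.CFB
import Pool.Agent.H27.L1.H83.GHY.ENG
import Pool.Agent.H27.L1.H84.GA.BIA
import Pool.Agent.H27.L1.H84.GA.BID
import Pool.Agent.H27.L1.H84.GA.FD2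
import Pool.Agent.H27.L1.H84.GA.FTB
import Pool.Agent.H27.L1.H84.GA.FTY
import Pool.Agent.H27.L1.H84.GA.TEU
import Pool.Agent.H27.L1.H84.GA.UDE
import Pool.Agent.H27.L1.H84.GB.ZPB
import Pool.Agent.H27.L1.H84.GU.FR2
import Pool.Agent.H27.L1.H84.GZZ.MED
import Pool.Agent.H27.L1.H85.GHY.MSD
import Pool.Agent.H27.L1.H85.GZ.UNZ
import Pool.Agent.H27.L1.H86.GA.CUA
import Pool.Agent.H27.L1.H86.GA.LPI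
import Pool.Agent.H27.L1.H86.GA.TBA
import Pool.Agent.H27.L1.H86.GZ.DAV
import Pool.Agent.H27.L1.H86.GZ.PSZ
import Pool.Agent.H27.L1.H86.GZ.RTI
import Pool.Agent.H27.L1.H88.GHY.H2D
import Pool.Agent.H27.L1.H89.GZ.TNL
import Pool.Agent.H27.L1.H90.GA.CCO
import Pool.Agent.H27.L1.H90.GA.CNR
import Pool.Agent.H27.L1.H90.GZ.UNL
import Pool.Agent.H27.L1.H90.GZ.VLM
import Pool.Agent.H27.L1.H91.GA.RRN
import Pool.Agent.H27.L1.H91.GZ.ADB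
import Pool.Agent.H27.L1.H94.GA.EGB
import Pool.Agent.H27.L1.H95.GZ.CNT
import Pool.Agent.H27.L1.H96.GHY.UNF

/-!
All rows of the hybrid fourth moment, level one included.
-/

open MeasureTheory

namespace Pool.Agent.H27.L1.H34.GZ

theorem a_CNT : T_CNT := Pool.Agent.H27.L1.H95.GZ.pf_CNT

theorem a_GSU : T_GSU := Pool.Agent.H27.L1.H36.GZ.pf_GSU a_CNT

theorem a_DYM : T_DYM := Pool.Agent.H27.L1.H68.GZ.pf_DYM a_GSU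

theorem g_HAR : Pool.Agent.H27.L1.H34.GM.T_HAR := Pool.Agent.H27.L1.H44.GMF.pf_HAR

theorem a_CVZ : T_CVZ := Pool.Agent.H27.L1.H63.GZ.pf_CVZ g_HAR

theorem a_RED : T_RED := Pool.Agent.H27.L1.H14.GZ.pf_RED

theorem a_VLA : T_VLA := Pool.Agent.H27.L1.H57.GZ.pf_VLA

theorem a_VO2 : T_VO2 := Pool.Agent.H27.L1.H72.GZ.pf_VO2

theorem a_VOL : T_VOL := Pool.Agent.H27.L1.H20.GZ.pf_VOL a_GSU a_VO2

theorem a_VLM : T_VLM := Pool.Agent.H27.L1.H90.GZ.pf_VLM a_RED a_GSU a_VOL a_CVZ a_VLA a_CNT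

end Pool.Agent.H27.L1.H34.GZ

namespace Pool.Agent.H27.L1.H23.GA.All

theorem c_FTA : Pool.Agent.H27.L1.H34.GA.T_FTA :=
  Pool.Agent.H27.L1.H19.GA.pf_FTA Pool.Agent.H27.L1.H34.GZ.a_VLM Pool.Agent.H27.L1.H34.GZ.a_DYM

theorem c_THG : Pool.Agent.H27.L1.H34.GA.T_THG :=
  Pool.Agent.H27.L1.H27.GA.pf_THG Pool.Agent.H27.L1.H34.GZ.a_CNT

end Pool.Agent.H27.L1.H23.GA.All

namespace Pool.Agent.H27.L1.H34.GZ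

theorem a_ALZ : T_ALZ := Pool.Agent.H27.L1.H64.GZ.pf_ALZ

theorem a_EXT : T_EXT := Pool.Agent.H27.L1.H14.GZ.pf_EXT

theorem g_MSR : Pool.Agent.H27.L1.H34.GM.T_MSR := Pool.Agent.H27.L1.H34.GM.pf_MSR

theorem a_JSH : T_JSH := Pool.Agent.H27.L1.H1.GZ.pf_JSH g_MSR

theorem g_PLR : Pool.Agent.H27.L1.H34.GM.T_PLR := Pool.Agent.H27.L1.H34.GM.pf_PLR g_MSR g_HAR

theorem a_SHI : T_SHI := Pool.Agent.H27.L1.H31.GZ.pf_SHI g_HAR g_PLR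

theorem a_IDX : T_IDX := Pool.Agent.H27.L1.H67.GZ.pf_IDX

theorem a_TNZ : T_TNZ := Pool.Agent.H27.L1.H4.GZ.pf_TNZ a_IDX

theorem a_UNZ : T_UNZ := Pool.Agent.H27.L1.H85.GZ.pf_UNZ g_HAR

theorem a_TNL : T_TNL := Pool.Agent.H27.L1.H89.GZ.pf_TNL a_SHI a_JSH a_UNZ a_ALZ a_TNZ a_EXT g_MSR

end Pool.Agent.H27.L1.H34.GZ

namespace Pool.Agent.H27.L1.H23.GA.All

theorem c_ACA : Pool.Agent.H27.L1.H34.GA.T_ACA :=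
  Pool.Agent.H27.L1.H11.GA.pf_ACA c_THG c_FTA Pool.Agent.H27.L1.H34.GZ.a_TNL Pool.Agent.H27.L1.H34.GZ.a_RED Pool.Agent.H27.L1.H34.GZ.a_GSU

theorem c_ADB : Pool.Agent.H27.L1.H34.GA.T_ADB :=
  Pool.Agent.H27.L1.H80.GA.pf_ADB c_THG c_FTA Pool.Agent.H27.L1.H34.GZ.a_TNL Pool.Agent.H27.L1.H34.GZ.a_GSU Pool.Agent.H27.L1.H34.GZ.g_MSR Pool.Agent.H27.L1.H34.GZ.a_ALZ Pool.Agent.H27.L1.H34.GZ.a_VLM

end Pool.Agent.H27.L1.H23.GA.All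

namespace Pool.Agent.H27.L1.H34.GZ

theorem a_PSZ : T_PSZ := Pool.Agent.H27.L1.H86.GZ.pf_PSZ

end Pool.Agent.H27.L1.H34.GZ

namespace Pool.Agent.H27.L1.H23.GA.All

theorem c_POA : Pool.Agent.H27.L1.H34.GA.T_POA :=
  Pool.Agent.H27.L1.H19.GA.pf_POA Pool.Agent.H27.L1.H34.GZ.a_ALZ Pool.Agent.H27.L1.H34.GZ.a_PSZ

end Pool.Agent.H27.L1.H23.GA.All

namespace Pool.Agent.H27.L1.H34.GU

open Pool.Agent.H27.L1.H34.GZ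
theorem b_PSU : Pool.Agent.H27.L1.H34.GU.T_PSU := Pool.Agent.H27.L1.H40.GUM.pf_PSU

end Pool.Agent.H27.L1.H34.GU

namespace Pool.Agent.H27.L1.H23.GA.All

theorem c_POV : Pool.Agent.H27.L1.H34.GA.T_POV :=
  Pool.Agent.H27.L1.H51.GA.pf_POV c_POA Pool.Agent.H27.L1.H34.GU.b_PSU Pool.Agent.H27.L1.H34.GZ.a_PSZ Pool.Agent.H27.L1.H34.GZ.a_ALZ

theorem c_ADR : Pool.Agent.H27.L1.H34.GA.T_ADR :=
  Pool.Agent.H27.L1.H55.GA.pf_ADR c_POV c_POA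

theorem c_BIA : Pool.Agent.H27.L1.H34.GA.T_BIA :=
  Pool.Agent.H27.L1.H84.GA.pf_BIA

theorem c_TBA : Pool.Agent.H27.L1.H34.GA.T_TBA :=
  Pool.Agent.H27.L1.H86.GA.pf_TBA

theorem c_APR : Pool.Agent.H27.L1.H34.GA.T_APR :=
  Pool.Agent.H27.L1.H74.GA.pf_APR c_BIA c_TBA Pool.Agent.H27.L1.H34.GZ.g_MSR Pool.Agent.H27.L1.H34.GZ.g_HAR Pool.Agent.H27.L1.H34.GZ.a_VLM

theorem c_BID : Pool.Agent.H27.L1.H34.GA.T_BID :=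
  Pool.Agent.H27.L1.H84.GA.pf_BID

theorem c_CCO : Pool.Agent.H27.L1.H34.GA.T_CCO :=
  Pool.Agent.H27.L1.H90.GA.pf_CCO Pool.Agent.H27.L1.H34.GZ.a_VLM

end Pool.Agent.H27.L1.H23.GA.All

namespace Pool.Agent.H27.L1.H34.GU

open Pool.Agent.H27.L1.H34.GZ
theorem b_ALU : Pool.Agent.H27.L1.H34.GU.T_ALU := Pool.Agent.H27.L1.H40.GUM.pf_ALU

end Pool.Agent.H27.L1.H34.GU

namespace Pool.Agent.H27.L1.H34.GZ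

theorem a_RTI : T_RTI := Pool.Agent.H27.L1.H86.GZ.pf_RTI g_HAR

end Pool.Agent.H27.L1.H34.GZ

namespace Pool.Agent.H27.L1.H23.GA.All

theorem c_CFA : Pool.Agent.H27.L1.H34.GA.T_CFA :=
  Pool.Agent.H27.L1.H69.GA.pf_CFA Pool.Agent.H27.L1.H34.GZ.a_VLM Pool.Agent.H27.L1.H34.GZ.a_RTI Pool.Agent.H27.L1.H34.GU.b_ALU Pool.Agent.H27.L1.H34.GZ.g_HAR

end Pool.Agent.H27.L1.H23.GA.All

namespace Pool.Agent.H27.L1.H34.GU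

open Pool.Agent.H27.L1.H34.GZ
theorem b_FR2 : Pool.Agent.H27.L1.H34.GU.T_FR2 := Pool.Agent.H27.L1.H84.GU.pf_FR2 Pool.Agent.H27.L1.H34.GZ.g_HAR Pool.Agent.H27.L1.H34.GZ.g_MSR Pool.Agent.H27.L1.H34.GZ.a_UNZ

end Pool.Agent.H27.L1.H34.GU

namespace Pool.Agent.H27.L1.H23.GA.All

theorem c_CFB : Pool.Agent.H27.L1.H34.GA.T_CFB :=
  Pool.Agent.H27.L1.H83.GA.pf_CFB Pool.Agent.H27.L1.H34.GZ.a_VLM Pool.Agent.H27.L1.H34.GZ.a_RTI Pool.Agent.H27.L1.H34.GU.b_ALU Pool.Agent.H27.L1.H34.GZ.g_HAR Pool.Agent.H27.L1.H34.GU.b_PSU Pool.Agent.H27.L1.H34.GU.b_FR2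

theorem c_CNR : Pool.Agent.H27.L1.H34.GA.T_CNR :=
  Pool.Agent.H27.L1.H90.GA.pf_CNR Pool.Agent.H27.L1.H34.GZ.a_VLM

theorem c_CUA : Pool.Agent.H27.L1.H34.GA.T_CUA :=
  Pool.Agent.H27.L1.H86.GA.pf_CUA

theorem c_LPI : Pool.Agent.H27.L1.H34.GA.T_LPI :=
  Pool.Agent.H27.L1.H86.GA.pf_LPI

end Pool.Agent.H27.L1.H23.GA.All

namespace Pool.Agent.H27.L1.H34.GZ

theorem a_CUB : T_CUB := Pool.Agent.H27.L1.H19.GZ.pf_CUB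

theorem g_HAC : Pool.Agent.H27.L1.H34.GM.T_HAC := Pool.Agent.H27.L1.H34.GM.pf_HAC g_HAR

end Pool.Agent.H27.L1.H34.GZ

namespace Pool.Agent.H27.L1.H23.GA.All

theorem c_OSA : Pool.Agent.H27.L1.H34.GA.T_OSA :=
  Pool.Agent.H27.L1.H13.GA.pf_OSA c_BIA c_LPI Pool.Agent.H27.L1.H34.GZ.a_CUB Pool.Agent.H27.L1.H34.GZ.g_HAC Pool.Agent.H27.L1.H34.GZ.g_HAR

theorem c_RRA : Pool.Agent.H27.L1.H34.GA.T_RRA :=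
  Pool.Agent.H27.L1.H74.GA.pf_RRA Pool.Agent.H27.L1.H34.GZ.g_MSR Pool.Agent.H27.L1.H34.GZ.g_HAR

theorem c_DCA : Pool.Agent.H27.L1.H34.GA.T_DCA :=
  Pool.Agent.H27.L1.H52.GA.pf_DCA Pool.Agent.H27.L1.H34.GZ.g_HAR Pool.Agent.H27.L1.H34.GZ.g_MSR c_BIA c_OSA c_RRA

end Pool.Agent.H27.L1.H23.GA.All

namespace Pool.Agent.H27.L1.H34.GZ

theorem g_PLC : Pool.Agent.H27.L1.H34.GM.T_PLC := Pool.Agent.H27.L1.H34.GM.pf_PLC g_MSR g_HAR g_PLR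

end Pool.Agent.H27.L1.H34.GZ

namespace Pool.Agent.H27.L1.H23.GA.All

theorem c_EZA : Pool.Agent.H27.L1.H34.GA.T_EZA :=
  Pool.Agent.H27.L1.H55.GA.pf_EZA Pool.Agent.H27.L1.H34.GZ.g_MSR Pool.Agent.H27.L1.H34.GZ.g_HAR Pool.Agent.H27.L1.H34.GZ.g_HAC Pool.Agent.H27.L1.H34.GZ.g_PLC

theorem c_EIA : Pool.Agent.H27.L1.H34.GA.T_EIA :=
  Pool.Agent.H27.L1.H55.GA.pf_EIA Pool.Agent.H27.L1.H34.GZ.g_MSR Pool.Agent.H27.L1.H34.GZ.g_HAR Pool.Agent.H27.L1.H34.GZ.a_ALZ Pool.Agent.H27.L1.H34.GU.b_ALU Pool.Agent.H27.L1.H34.GZ.a_UNZ c_EZA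

theorem c_LMA : Pool.Agent.H27.L1.H34.GA.T_LMA :=
  Pool.Agent.H27.L1.H35.GA.pf_LMA Pool.Agent.H27.L1.H34.GZ.a_TNZ

theorem c_EGB : Pool.Agent.H27.L1.H34.GA.T_EGB :=
  Pool.Agent.H27.L1.H94.GA.pf_EGB c_EIA c_CUA Pool.Agent.H27.L1.H34.GZ.a_TNL Pool.Agent.H27.L1.H34.GZ.a_JSH c_LMA Pool.Agent.H27.L1.H34.GZ.a_ALZ Pool.Agent.H27.L1.H34.GZ.g_MSR

theorem c_INZ : Pool.Agent.H27.L1.H23.GA.T_INZ :=
  Pool.Agent.H27.L1.H55.pf_INZ c_ACA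

theorem c_SGA : Pool.Agent.H27.L1.H34.GA.T_SGA :=
  Pool.Agent.H27.L1.H23.GA.pf_SGA c_ACA c_INZ

theorem c_EGA : Pool.Agent.H27.L1.H34.GA.T_EGA :=
  Pool.Agent.H27.L1.H54.GA.pf_EGA c_EGB c_SGA c_ACA

end Pool.Agent.H27.L1.H23.GA.All

namespace Pool.Agent.H27.L1.H34.GZ

theorem g_CON : Pool.Agent.H27.L1.H34.GM.T_CON := Pool.Agent.H27.L1.H34.GM.pf_CON

end Pool.Agent.H27.L1.H34.GZ

namespace Pool.Agent.H27.L1.H23.GA.All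

theorem c_GLA : Pool.Agent.H27.L1.H34.GA.T_GLA :=
  Pool.Agent.H27.L1.H17.GA.GLA.pf_GLA Pool.Agent.H27.L1.H34.GZ.g_CON

theorem c_MLZ : Pool.Agent.H27.L1.H34.GA.T_MLZ :=
  Pool.Agent.H27.L1.H69.GA.pf_MLZ Pool.Agent.H27.L1.H34.GZ.g_MSR Pool.Agent.H27.L1.H34.GZ.g_HAR Pool.Agent.H27.L1.H34.GZ.g_PLC

theorem c_NZR : Pool.Agent.H27.L1.H34.GA.T_NZR :=
  Pool.Agent.H27.L1.H50.GA.pf_NZR c_BIA c_TBA Pool.Agent.H27.L1.H34.GZ.g_MSR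

theorem c_NZU : Pool.Agent.H27.L1.H34.GA.T_NZU :=
  Pool.Agent.H27.L1.H12.GA.pf_NZU Pool.Agent.H27.L1.H34.GZ.a_UNZ Pool.Agent.H27.L1.H34.GU.b_ALU Pool.Agent.H27.L1.H34.GZ.g_MSR Pool.Agent.H27.L1.H34.GZ.a_VLM

theorem c_RRC : Pool.Agent.H27.L1.H34.GA.T_RRC :=
  Pool.Agent.H27.L1.H74.GA.pf_RRC Pool.Agent.H27.L1.H34.GZ.g_MSR Pool.Agent.H27.L1.H34.GZ.g_HAR c_RRA

theorem c_UBD : Pool.Agent.H27.L1.H34.GA.T_UBD :=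
  Pool.Agent.H27.L1.H20.GA.pf_UBD Pool.Agent.H27.L1.H34.GZ.g_MSR Pool.Agent.H27.L1.H34.GZ.a_JSH

theorem c_PA1 : Pool.Agent.H27.L1.H34.GA.T_PA1 :=
  Pool.Agent.H27.L1.H63.GA.pf_PA1 c_EIA c_UBD Pool.Agent.H27.L1.H34.GZ.g_MSR Pool.Agent.H27.L1.H34.GZ.a_VLM

theorem c_FTB : Pool.Agent.H27.L1.H34.GA.T_FTB :=
  Pool.Agent.H27.L1.H84.GA.pf_FTB

theorem c_PA2 : Pool.Agent.H27.L1.H34.GA.T_PA2 :=
  Pool.Agent.H27.L1.H31.GA.pf_PA2 c_EIA c_ACA c_ADR c_ADB c_EGA c_FTB c_LMA c_UBD Pool.Agent.H27.L1.H34.GZ.g_MSR Pool.Agent.H27.L1.H34.GZ.a_VLM Pool.Agent.H27.L1.H34.GU.b_PSU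

theorem c_FEA : Pool.Agent.H27.L1.H34.GA.T_FEA :=
  Pool.Agent.H27.L1.H69.GA.pf_FEA c_PA1 c_PA2

end Pool.Agent.H27.L1.H23.GA.All

namespace Pool.Agent.H27.L1.H34.GU

open Pool.Agent.H27.L1.H34.GZ
theorem b_FR1 : Pool.Agent.H27.L1.H34.GU.T_FR1 := Pool.Agent.H27.L1.H30.GU.pf_FR1 Pool.Agent.H27.L1.H34.GZ.a_IDX

end Pool.Agent.H27.L1.H34.GU

namespace Pool.Agent.H27.L1.H23.GA.All

theorem c_SMA : Pool.Agent.H27.L1.H34.GA.T_SMA :=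
  Pool.Agent.H27.L1.H69.GA.pf_SMA Pool.Agent.H27.L1.H34.GU.b_FR1 c_CFA c_CFB c_MLZ c_FEA c_UBD c_FTB c_LMA

theorem c_ZLO : Pool.Agent.H27.L1.H34.GA.T_ZLO :=
  Pool.Agent.H27.L1.H23.GA.pf_ZLO c_BIA

theorem c_ENA : Pool.Agent.H27.L1.H34.GA.T_ENA :=
  Pool.Agent.H27.L1.H69.GA.pf_ENA Pool.Agent.H27.L1.H34.GM.pf_PRF c_BIA c_NZR c_RRC c_DCA c_NZU c_CCO c_CFA c_ZLO c_MLZ c_SMA c_LMA c_GLA

theorem c_FDD : Pool.Agent.H27.L1.H34.GA.T_FDD :=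
  Pool.Agent.H27.L1.H84.GA.pf_FDD

theorem c_FTY : Pool.Agent.H27.L1.H34.GA.T_FTY :=
  Pool.Agent.H27.L1.H84.GA.pf_FTY

theorem c_TEU : Pool.Agent.H27.L1.H34.GA.T_TEU :=
  Pool.Agent.H27.L1.H84.GA.pf_TEU

theorem c_UDE : Pool.Agent.H27.L1.H34.GA.T_UDE :=
  Pool.Agent.H27.L1.H84.GA.pf_UDE Pool.Agent.H27.L1.H34.GZ.g_MSR Pool.Agent.H27.L1.H34.GZ.a_JSH

theorem c_ZAD : Pool.Agent.H27.L1.H34.GA.T_ZAD :=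
  Pool.Agent.H27.L1.H84.GA.pf_ZAD

theorem c_PHB : Pool.Agent.H27.L1.H34.GA.T_PHB :=
  Pool.Agent.H27.L1.H23.GA.pf_PHB c_BIA c_BID c_FTY c_FDD c_ZAD c_TEU c_UBD c_UDE c_ZLO c_FTB Pool.Agent.H27.L1.H34.GZ.a_JSH

theorem c_RRN : Pool.Agent.H27.L1.H34.GA.T_RRN :=
  Pool.Agent.H27.L1.H91.GA.pf_RRN Pool.Agent.H27.L1.H34.GZ.a_RTI Pool.Agent.H27.L1.H34.GU.b_ALU Pool.Agent.H27.L1.H34.GZ.g_MSR

end Pool.Agent.H27.L1.H23.GA.All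

namespace Pool.Agent.H27.L1.H23.GHY.All

theorem c_CGB : Pool.Agent.H27.L1.H68.GHY.T_CGB :=
  Pool.Agent.H27.L1.H13.GHY.pf_CGB Pool.Agent.H27.L1.H34.GZ.a_IDX

theorem c_CLD : Pool.Agent.H27.L1.H68.GHY.T_CLD :=
  Pool.Agent.H27.L1.H73.GHY.pf_CLD

end Pool.Agent.H27.L1.H23.GHY.All

namespace Pool.Agent.H27.L1.H34.GU

open Pool.Agent.H27.L1.H34.GZ
theorem b_KLI : Pool.Agent.H27.L1.H34.GU.T_KLI := Pool.Agent.H27.L1.H40.GUM.pf_KLI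

end Pool.Agent.H27.L1.H34.GU

namespace Pool.Agent.H27.L1.H23.GHY.All

theorem c_CNV : Pool.Agent.H27.L1.H68.GHY.T_CNV :=
  Pool.Agent.H27.L1.H16.GHY.pf_CNV Pool.Agent.H27.L1.H34.GZ.a_CNT Pool.Agent.H27.L1.H34.GU.b_KLI Pool.Agent.H27.L1.H34.GZ.a_IDX

theorem c_GAL : Pool.Agent.H27.L1.H68.GHY.T_GAL :=
  Pool.Agent.H27.L1.H14.GHY.pf_GAL

theorem c_EID : Pool.Agent.H27.L1.H68.GHY.T_EID :=
  Pool.Agent.H27.L1.H23.GHY.pf_EID Pool.Agent.H27.L1.H34.GZ.a_ALZ Pool.Agent.H27.L1.H34.GU.b_ALU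

end Pool.Agent.H27.L1.H23.GHY.All

namespace Pool.Agent.H27.L1.H34.GZ

theorem a_ADB : T_ADB := Pool.Agent.H27.L1.H91.GZ.pf_ADB

end Pool.Agent.H27.L1.H34.GZ

namespace Pool.Agent.H27.L1.H34.GU

open Pool.Agent.H27.L1.H34.GZ
theorem b_CNX : Pool.Agent.H27.L1.H34.GU.T_CNX := Pool.Agent.H27.L1.H20.GU.pf_CNX Pool.Agent.H27.L1.H34.GZ.a_CNT Pool.Agent.H27.L1.H34.GZ.a_ADB

end Pool.Agent.H27.L1.H34.GU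

namespace Pool.Agent.H27.L1.H34.GZ

theorem a_CMA : T_CMA := Pool.Agent.H27.L1.H32.GZ.pf_CMA a_CNT

theorem a_STA : T_STA := Pool.Agent.H27.L1.H67.GZ.pf_STA a_CNT

theorem a_STR : T_STR := Pool.Agent.H27.L1.H77.GZ.pf_STR a_RED a_CNT a_IDX a_STA

theorem a_FLG : T_FLG := Pool.Agent.H27.L1.H4.GZ.pf_FLG

theorem a_CHN : T_CHN := Pool.Agent.H27.L1.H62.GZ.pf_CHN a_FLG

theorem a_WSM : T_WSM := Pool.Agent.H27.L1.H1.GZ.pf_WSM a_FLG a_CHN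

theorem a_DAV : T_DAV := Pool.Agent.H27.L1.H86.GZ.pf_DAV a_CNT a_IDX a_STR a_ADB a_WSM

theorem a_MUL : T_MUL := Pool.Agent.H27.L1.H69.GZ.pf_MUL a_IDX

end Pool.Agent.H27.L1.H34.GZ

namespace Pool.Agent.H27.L1.H23.GHY.All

theorem c_EMD : Pool.Agent.H27.L1.H68.GHY.T_EMD :=
  Pool.Agent.H27.L1.H16.GHY.pf_EMD Pool.Agent.H27.L1.H34.GU.b_CNX Pool.Agent.H27.L1.H34.GZ.a_CNT Pool.Agent.H27.L1.H34.GZ.a_CMA Pool.Agent.H27.L1.H34.GZ.a_IDX Pool.Agent.H27.L1.H34.GZ.a_DAV Pool.Agent.H27.L1.H34.GZ.a_MUL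

theorem c_VTH : Pool.Agent.H27.L1.H68.GHY.T_VTH :=
  Pool.Agent.H27.L1.H5.GHY.pf_VTH Pool.Agent.H27.L1.H34.GZ.g_MSR Pool.Agent.H27.L1.H34.GZ.a_SHI

end Pool.Agent.H27.L1.H23.GHY.All

namespace Pool.Agent.H27.L1.H34.GZ

theorem a_UNL : T_UNL := Pool.Agent.H27.L1.H90.GZ.pf_UNL a_UNZ a_IDX

end Pool.Agent.H27.L1.H34.GZ

namespace Pool.Agent.H27.L1.H23.GHY.All

theorem c_H2D : Pool.Agent.H27.L1.H68.GHY.T_H2D :=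
  Pool.Agent.H27.L1.H88.GHY.pf_H2D Pool.Agent.H27.L1.H34.GZ.a_UNL c_VTH c_CLD c_CNV Pool.Agent.H27.L1.H34.GZ.a_CNT Pool.Agent.H27.L1.H34.GU.b_ALU Pool.Agent.H27.L1.H34.GZ.a_ALZ Pool.Agent.H27.L1.H34.GZ.a_IDX

theorem c_KMD : Pool.Agent.H27.L1.H68.GHY.T_KMD :=
  Pool.Agent.H27.L1.H69.GHY.pf_KMD Pool.Agent.H27.L1.H34.GZ.g_MSR

end Pool.Agent.H27.L1.H23.GHY.All

namespace Pool.Agent.H27.L1.H34.GZ

theorem a_SEX : T_SEX := Pool.Agent.H27.L1.H68.GZ.pf_SEX a_RED a_IDX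

end Pool.Agent.H27.L1.H34.GZ

namespace Pool.Agent.H27.L1.H23.GHY.All

theorem c_ENG : Pool.Agent.H27.L1.H68.GHY.T_ENG :=
  Pool.Agent.H27.L1.H83.GHY.pf_ENG c_KMD c_H2D c_EID c_EMD Pool.Agent.H27.L1.H34.GU.b_KLI Pool.Agent.H27.L1.H34.GZ.a_VLM Pool.Agent.H27.L1.H34.GZ.a_SEX Pool.Agent.H27.L1.H34.GZ.a_DYM Pool.Agent.H27.L1.H34.GU.b_ALU Pool.Agent.H27.L1.H34.GZ.a_ALZ

theorem c_KCD : Pool.Agent.H27.L1.H68.GHY.T_KCD :=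
  Pool.Agent.H27.L1.H49.GHY.pf_KCD c_CGB

theorem c_HCP : Pool.Agent.H27.L1.H68.GHY.T_HCP :=
  Pool.Agent.H27.L1.H14.GHY.pf_HCP Pool.Agent.H27.L1.H34.GZ.a_IDX Pool.Agent.H27.L1.H34.GU.b_ALU Pool.Agent.H27.L1.H34.GZ.a_ALZ

theorem c_UNF : Pool.Agent.H27.L1.H68.GHY.T_UNF :=
  Pool.Agent.H27.L1.H96.GHY.pf_UNF Pool.Agent.H27.L1.H34.GZ.a_UNZ Pool.Agent.H27.L1.H23.GA.All.c_EZA Pool.Agent.H27.L1.H34.GU.b_ALU Pool.Agent.H27.L1.H34.GZ.a_ALZ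

theorem c_OCD : Pool.Agent.H27.L1.H68.GHY.T_OCD :=
  Pool.Agent.H27.L1.H80.GHY.pf_OCD c_UNF c_HCP c_CGB c_KCD Pool.Agent.H27.L1.H23.GA.All.c_BIA Pool.Agent.H27.L1.H23.GA.All.c_RRA

theorem c_HSD : Pool.Agent.H27.L1.H68.GHY.T_HSD :=
  Pool.Agent.H27.L1.H55.GHY.pf_HSD Pool.Agent.H27.L1.H23.GA.All.c_BIA c_KCD c_KMD c_OCD

theorem c_MSD : Pool.Agent.H27.L1.H68.GHY.T_MSD :=
  Pool.Agent.H27.L1.H85.GHY.pf_MSD Pool.Agent.H27.L1.H23.GA.All.c_APR Pool.Agent.H27.L1.H23.GA.All.c_OSA Pool.Agent.H27.L1.H23.GA.All.c_RRA Pool.Agent.H27.L1.H23.GA.All.c_RRN Pool.Agent.H27.L1.H23.GA.All.c_TBA Pool.Agent.H27.L1.H23.GA.All.c_BIA Pool.Agent.H27.L1.H34.GZ.a_RTI Pool.Agent.H27.L1.H34.GZ.a_DYM Pool.Agent.H27.L1.H34.GZ.a_VLM Pool.Agent.H27.L1.H34.GU.b_ALU Pool.Agent.H27.L1.H34.GZ.g_MSR Pool.Agent.H27.L1.H34.GZ.g_HAR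

theorem c_TBS : Pool.Agent.H27.L1.H68.GHY.T_TBS :=
  Pool.Agent.H27.L1.H55.GHY.pf_TBS

theorem c_LSD : Pool.Agent.H27.L1.H68.GHY.T_LSD :=
  Pool.Agent.H27.L1.H61.GHY.pf_LSD Pool.Agent.H27.L1.H34.GM.pf_PRF c_HSD c_MSD c_ENG c_TBS Pool.Agent.H27.L1.H34.GZ.a_DYM

theorem c_SQD : Pool.Agent.H27.L1.H68.GHY.T_SQD :=
  Pool.Agent.H27.L1.H36.GHY.pf_SQD

theorem c_LT4 : Pool.Agent.H27.L1.H68.GHY.T_LT4 :=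
  Pool.Agent.H27.L1.H54.GHY.pf_LT4 c_LSD c_GAL c_SQD

theorem c_CRD : Pool.Agent.H27.L1.H68.GHY.T_CRD :=
  Pool.Agent.H27.L1.H37.GHY.pf_CRD c_LT4

theorem c_DYD : Pool.Agent.H27.L1.H68.GHY.T_DYD :=
  Pool.Agent.H27.L1.H11.GHY.pf_DYD c_LT4

theorem d_FEC : Pool.Agent.H27.L1.H23.GB.T_FEC :=
  Pool.Agent.H27.L1.H16.GB.pf_FEC Pool.Agent.H27.L1.H23.GA.All.c_PA1 Pool.Agent.H27.L1.H23.GA.All.c_PA2

theorem d_LMB : Pool.Agent.H27.L1.H23.GB.T_LMB :=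
  Pool.Agent.H27.L1.H35.GB.pf_LMB Pool.Agent.H27.L1.H34.GZ.a_TNZ

theorem d_ZPB : Pool.Agent.H27.L1.H23.GB.T_ZPB :=
  Pool.Agent.H27.L1.H84.GB.pf_ZPB Pool.Agent.H27.L1.H23.GA.All.c_UBD

theorem d_ZPE : Pool.Agent.H27.L1.H23.GB.T_ZPE :=
  Pool.Agent.H27.L1.H31.GB.pf_ZPE

end Pool.Agent.H27.L1.H23.GHY.All
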