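import Pool.Agent.H27.L1.All
import Pool.Agent.H27.L1.H16.GZZ.TAY
import Pool.Agent.H27.L1.H23.GZZ.AFZ
import Pool.Agent.H27.L1.H84.GZZ.MED
import Pool.Agent.H27.L1.H55.GZZ.CIZ
import Pool.Agent.H27.L1.H34.GZZ.HYZ
import Pool.Agent.H27.L1.H34.GZZ.GBZ

/-!
Board gzz (MP_52e316_nt) with level one: everything composed, no hypotheses.
-/

set_option autoImplicit false

namespace Pool.Agent.H27.L1.H34.GZZ

open Pool.Agent.H27.L1.H23.GHY.All in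
theorem c_HYZ : T_HYZ :=
  pf_HYZ Pool.Agent.H27.L1.H34.GM.pf_PRF Pool.Agent.H27.L1.H34.GU.b_FR1
    Pool.Agent.H27.L1.H23.GZZ.pf_AFZ d_ZPE d_LMB
    d_ZPB d_FEC Pool.Agent.H27.L1.H23.GA.All.c_MLZ Pool.Agent.H27.L1.H23.GA.All.c_ENA
    Pool.Agent.H27.L1.H23.GA.All.c_CNR Pool.Agent.H27.L1.H23.GA.All.c_CFA
    Pool.Agent.H27.L1.H23.GA.All.c_CFB
    Pool.Agent.H27.L1.H23.GA.All.c_SMA Pool.Agent.H27.L1.H23.GA.All.c_PHB
    Pool.Agent.H27.L1.H23.GA.All.c_BIA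
    Pool.Agent.H27.L1.H16.GZZ.pf_TAY Pool.Agent.H27.L1.H55.GZZ.pf_CIZ
    Pool.Agent.H27.L1.H84.GZZ.pf_MED

open Pool.Agent.H27.L1.H23.GHY.All in
/-- the hybrid fourth moment: no weight, no condition at infinity, all levels -/
theorem c_GBZ : T_GBZ :=
  pf_GBZ Pool.Agent.H27.L1.H23.GA.All.c_ENA c_HYZ c_DYD c_CRD

end Pool.Agent.H27.L1.H34.GZZ
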