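import Pool.Agent.H27.L1.Fin
import Pool.Agent.H27.L1.H86.GMF.BMP
import Pool.Agent.H27.L1.H34.GM.PWN
import Pool.Agent.H27.L1.H34.GM.PWC
import Pool.Agent.H27.L1.H43.GZ.EXD
import Pool.Agent.H27.L1.H46.GHY.DBK
import Pool.Agent.H27.L1.H62.GHY.SPL
import Pool.Agent.H27.L1.H68.GHY.UNV
import Pool.Agent.H27.L1.H34.GHY.GBI

/-!
Level one: the existence of the systems and the Lipschitz constants of the spherical forms.
-/

set_option autoImplicit false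

namespace Pool.Agent.H27.L1.H34.GZ

open Pool.Agent.H27.L1.H34.GM

theorem g_PWC : Pool.Agent.H27.L1.H34.GM.T_PWC := Pool.Agent.H27.L1.H34.GM.pf_PWC

theorem g_BMP : Pool.Agent.H27.L1.H34.GM.T_BMP := Pool.Agent.H27.L1.H86.GMF.pf_BMP

theorem g_PWN : Pool.Agent.H27.L1.H34.GM.T_PWN := Pool.Agent.H27.L1.H34.GM.pf_PWN

theorem f_EXT : T_EXT := a_EXT

theorem f_EXD : T_EXD := Pool.Agent.H27.L1.H43.GZ.pf_EXD g_MSR

/-- the Lipschitz constants of the spherical forms, all levels -/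
theorem c_SPL : Pool.Agent.H27.L1.H68.GHY.T_SPL :=
  Pool.Agent.H27.L1.H62.GHY.pf_SPL (Pool.Agent.H27.L1.H46.GHY.pf_DBK g_HAR)
    Pool.Agent.H27.L1.H34.GM.pf_PRF g_BMP g_PWN g_PWC g_HAR g_HAC a_RTI a_VLM
    Pool.Agent.H27.L1.H34.GU.b_ALU g_MSR

end Pool.Agent.H27.L1.H34.GZ
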